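import Pool.Agent.MP_1dd261_pr.Defs

/-! Criteria for avoidance and faithfulness. -/

namespace Pool.Agent.MP_1dd261_pr

open Finset
open scoped Classical

variable {n k : ℕ} [NeZero k] (μ : (Fin k → Fin n) → ℝ) (K : Fin k → (Fin k → Fin n) → Fin n → ℝ)

/-- Probability of a cylinder event with prescribed last configuration. -/
noncomputable def cyl (A : ℕ → (Fin k → Fin n) → Prop) : ℕ → (Fin k → Fin n) → ℝ
  | 0 => fun c => if A 0 c then μ c else 0
  | t + 1 => fun c' => if A (t + 1) c' then ∑ c, cyl A t c * turn K (Fin.ofNat k t) c c' else 0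

/-- The law after `t` turns. -/
noncomputable def steps : ℕ → (Fin k → Fin n) → ℝ
  | 0 => μ
  | t + 1 => fun c' => ∑ c, steps t c * turn K (Fin.ofNat k t) c c'

theorem pathProb_snoc (T : ℕ) (γ : Fin (T + 1) → Fin k → Fin n) (c : Fin k → Fin n) :
    pathProb μ K (T + 1) (Fin.snoc (α := fun _ => Fin k → Fin n) γ c) =
      pathProb μ K T γ * turn K (Fin.ofNat k T) (γ (Fin.last T)) c := by
  unfold pathProb
  rw [Fin.prod_univ_castSucc, mul_assoc]
  simp only [Fin.succ_last, Fin.snoc_last, Fin.snoc_castSucc, Fin.succ_castSucc, Fin.val_castSucc,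
    Fin.val_last]
  rw [← Fin.castSucc_zero, Fin.snoc_castSucc]

theorem sum_path (A : ℕ → (Fin k → Fin n) → Prop) (T : ℕ) (c : Fin k → Fin n) :
    ∑ γ : Fin (T + 1) → Fin k → Fin n,
      (if (∀ t : Fin (T + 1), A t (γ t)) ∧ γ (Fin.last T) = c then pathProb μ K T γ else 0) =
      cyl μ K A T c := by
  induction T generalizing c with
  | zero =>
    rw [← (Equiv.funUnique (Fin 1) (Fin k → Fin n)).symm.sum_comp, sum_eq_single c]
    · simp [cyl, pathProb]
    · intro b _ hb
      exact if_neg fun h => hb h.2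
    · simp
  | succ T ih =>
    rw [← (Fin.snocEquiv fun _ => Fin k → Fin n).sum_comp, Fintype.sum_prod_type,
      sum_eq_single c]
    · have e : ∀ γ : Fin (T + 1) → Fin k → Fin n,
          (∀ t : Fin (T + 1 + 1), A t (Fin.snoc (α := fun _ => Fin k → Fin n) γ c t)) ↔
          (∀ t : Fin (T + 1), A t (γ t)) ∧ A (T + 1) c := fun γ => by
        rw [Fin.forall_fin_succ' (n := T + 1)]
        simp only [Fin.snoc_last, Fin.snoc_castSucc, Fin.val_castSucc, Fin.val_last]
      change ∑ γ : Fin (T + 1) → Fin k → Fin n, (if (∀ t : Fin (T + 1 + 1), A t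
        (Fin.snoc (α := fun _ => Fin k → Fin n) γ c t)) ∧
        Fin.snoc (α := fun _ => Fin k → Fin n) γ c (Fin.last (T + 1)) = c then
        pathProb μ K (T + 1) (Fin.snoc (α := fun _ => Fin k → Fin n) γ c) else 0) = _
      simp only [e, Fin.snoc_last, pathProb_snoc, and_true, cyl]
      split_ifs with h
      · simp only [h, and_true, ← ih, sum_mul]
        rw [sum_comm]
        refine sum_congr rfl fun γ _ => ?_
        rw [sum_eq_single (γ (Fin.last T))]
        · simp
        · intro b _ hb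
          rw [if_neg fun h => hb h.2.symm, zero_mul]
        · simp
      · simp [h]
    · intro b _ hb
      refine sum_eq_zero fun γ _ => if_neg fun h => hb ?_
      rw [← h.2]
      exact (Fin.snoc_last (α := fun _ => Fin k → Fin n) b γ).symm
    · simp

theorem sum_path' (A : ℕ → (Fin k → Fin n) → Prop) (T : ℕ) :
    ∑ γ : Fin (T + 1) → Fin k → Fin n with (∀ t : Fin (T + 1), A t (γ t)), pathProb μ K T γ =
      ∑ c, cyl μ K A T c := by
  simp only [← sum_path]
  rw [sum_comm, sum_filter]
  refine sum_congr rfl fun γ _ => ?_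
  rw [sum_eq_single (γ (Fin.last T))]
  · simp
  · intro b _ hb
    exact if_neg fun h => hb h.2.symm
  · simp

theorem cyl_round (i : Fin k) (x : ℕ → Fin n) (T j : ℕ) (hj : j < k) :
    cyl μ K (fun t c => ∀ s, t = k * s → c i = x s) (k * T + j) =
      steps (cyl μ K (fun t c => ∀ s, t = k * s → c i = x s) (k * T)) K j := by
  induction j with
  | zero => rfl
  | succ j ih =>
    funext c'
    have h1 : Fin.ofNat k (k * T + j) = Fin.ofNat k j := Fin.ext (by simp [Fin.ofNat])
    rw [← add_assoc, cyl, steps, ih (by omega), h1]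
    refine if_pos fun s hs => absurd hs fun hs => ?_
    have h2 : (k * T + (j + 1)) % k = 0 := by rw [← add_assoc, hs, Nat.mul_mod_right]
    rw [Nat.mul_add_mod, Nat.mod_eq_of_lt hj] at h2
    omega

theorem cyl_succ (i : Fin k) (x : ℕ → Fin n) (T : ℕ) :
    cyl μ K (fun t c => ∀ s, t = k * s → c i = x s) (k * (T + 1)) = fun c' =>
      if c' i = x (T + 1) then
        steps (cyl μ K (fun t c => ∀ s, t = k * s → c i = x s) (k * T)) K k c' else 0 := by
  obtain ⟨j, hj⟩ : ∃ j, k = j + 1 := Nat.exists_eq_succ_of_ne_zero (NeZero.ne k)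
  funext c'
  have h0 : k * (T + 1) = k * T + j + 1 := by rw [mul_add, mul_one, add_assoc, ← hj]
  have h1 : Fin.ofNat k (k * T + j) = Fin.ofNat k j := Fin.ext (by simp [Fin.ofNat])
  have h2 : ∀ ν, steps ν K k c' = ∑ c, steps ν K j c * turn K (Fin.ofNat k j) c c' := fun ν => by
    conv_lhs => rw [show steps ν K k = steps ν K (j + 1) from congrArg _ hj]
    rfl
  rw [h2, ← cyl_round μ K i x T j (by omega), ← h1]
  conv_lhs => rw [h0, cyl, ← h0]
  refine if_congr ⟨fun h => h _ rfl, fun h s hs => ?_⟩ rfl rfl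
  rwa [← Nat.eq_of_mul_eq_mul_left (Nat.pos_of_ne_zero (NeZero.ne k)) hs]

theorem faithful_of_inv (w : ℝ) (i : Fin k) (J : Fin n → ((Fin k → Fin n) → ℝ) → ℝ → Prop)
    (h0 : ∀ x, J x (fun c => if c i = x then μ c else 0) (∑ c with c i = x, μ c))
    (h1 : ∀ x ν M y, J x ν M →
      J y (fun c => if c i = y then steps ν K k c else 0) (M * walk n w x y))
    (h2 : ∀ x ν M, J x ν M → ∑ c, ν c = M) (T : ℕ) (x : ℕ → Fin n) :
    ∑ γ : Fin (k * T + 1) → Fin k → Fin n with
        (∀ (t : Fin (k * T + 1)) (s : ℕ), (t : ℕ) = k * s → γ t i = x s), pathProb μ K (k * T) γ =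
      (∑ c with c i = x 0, μ c) * ∏ s ∈ range T, walk n w (x s) (x (s + 1)) := by
  have key : J (x T) (cyl μ K (fun t c => ∀ s, t = k * s → c i = x s) (k * T))
      ((∑ c with c i = x 0, μ c) * ∏ s ∈ range T, walk n w (x s) (x (s + 1))) := by
    induction T with
    | zero =>
      have e : cyl μ K (fun t c => ∀ s, t = k * s → c i = x s) (k * 0) =
          fun c => if c i = x 0 then μ c else 0 := by
        funext c
        refine if_congr ⟨fun h => h 0 rfl, fun h s hs => ?_⟩ rfl rfl
        rwa [(Nat.mul_eq_zero.1 hs.symm).resolve_left (NeZero.ne k)]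
      rw [e, prod_range_zero, mul_one]
      exact h0 _
    | succ T ih =>
      rw [cyl_succ, prod_range_succ, ← mul_assoc]
      exact h1 _ _ _ _ ih
  rw [← h2 _ _ _ key, ← sum_path']

theorem avoid_of_inv (J : ℕ → (Fin k → Fin n) → Prop) (h0 : ∀ c, μ c ≠ 0 → J 0 c)
    (h1 : ∀ t c v, J t c → K (Fin.ofNat k t) c v ≠ 0 →
      J (t + 1) (Function.update c (Fin.ofNat k t) v))
    (h2 : ∀ t c, J t c → Function.Injective c) (T : ℕ) (γ : Fin (T + 1) → Fin k → Fin n)
    (h : pathProb μ K T γ ≠ 0) (t : Fin (T + 1)) : Function.Injective (γ t) := by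
  refine h2 t _ ?_
  induction t using Fin.induction with
  | zero => exact h0 _ (left_ne_zero_of_mul h)
  | succ t ih =>
    have h3 := prod_ne_zero_iff.1 (right_ne_zero_of_mul h) t (mem_univ t)
    unfold turn at h3
    split_ifs at h3 with h4
    · rw [h4]
      exact h1 _ _ _ ih h3
    · exact absurd rfl h3

theorem steps_linear (j : ℕ) (c' : Fin k → Fin n) :
    steps μ K j c' = ∑ c, μ c * steps (fun d => if d = c then 1 else 0) K j c' := by
  induction j generalizing c' with
  | zero => simp [steps]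
  | succ j ih =>
    simp only [steps, ih, sum_mul, mul_sum, mul_assoc]
    exact sum_comm

omit [NeZero k] in
theorem sum_turn (j : Fin k) (g : (Fin k → Fin n) → ℝ) (c' : Fin k → Fin n) :
    ∑ c, g c * turn K j c c' =
      ∑ u, g (Function.update c' j u) * K j (Function.update c' j u) (c' j) := by
  rw [← sum_fiberwise univ (fun c : Fin k → Fin n => c j)]
  refine sum_congr rfl fun u _ => ?_
  rw [sum_eq_single_of_mem (Function.update c' j u) (by simp)]
  · rw [turn, if_pos (by simp)]
  · intro b hb hb'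
    rw [turn, if_neg, mul_zero]
    intro h
    refine hb' ?_
    rw [h, Function.update_idem, ← (mem_filter.1 hb).2, Function.update_eq_self]

end Pool.Agent.MP_1dd261_pr
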