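import Mathlib

/-! Markovian avoidance couplings of walks on the complete graph with weighted loops. -/

namespace Pool.Agent.MP_1dd261_pr

open Finset

variable {n k : ℕ}

/-- Transition probabilities of the walk on `K_n` with loops of weight `w`. -/
noncomputable def walk (n : ℕ) (w : ℝ) (x y : Fin n) : ℝ :=
  (if y = x then w else 1) / (w + n - 1)

/-- One turn of walker `j`, from configuration `c` to configuration `c'`: only walker `j` may
change its vertex, and it goes to `v` with probability `K j c v`. -/
noncomputable def turn (K : Fin k → (Fin k → Fin n) → Fin n → ℝ) (j : Fin k)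
    (c c' : Fin k → Fin n) : ℝ :=
  if c' = Function.update c j (c' j) then K j c (c' j) else 0

/-- The probability that the configurations at times `0, …, T` are `γ 0, …, γ T`, for the Markov
chain with initial law `μ` in which walker `t mod k` moves from time `t` to time `t + 1`. -/
noncomputable def pathProb [NeZero k] (μ : (Fin k → Fin n) → ℝ)
    (K : Fin k → (Fin k → Fin n) → Fin n → ℝ) (T : ℕ) (γ : Fin (T + 1) → Fin k → Fin n) : ℝ :=
  μ (γ 0) * ∏ t : Fin T, turn K (Fin.ofNat k t) (γ t.castSucc) (γ t.succ)

open Classical in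
/-- A Markovian avoidance coupling of `k` walkers on `K_n` with loops of weight `w`. -/
structure IsMAC [NeZero k] (w : ℝ) (μ : (Fin k → Fin n) → ℝ)
    (K : Fin k → (Fin k → Fin n) → Fin n → ℝ) : Prop where
  init_nonneg : ∀ c, 0 ≤ μ c
  init_sum : ∑ c, μ c = 1
  step_nonneg : ∀ j c v, 0 ≤ K j c v
  step_sum : ∀ j c, ∑ v, K j c v = 1
  /-- almost surely the walkers always occupy distinct vertices -/
  avoid : ∀ T γ, pathProb μ K T γ ≠ 0 → ∀ t, Function.Injective (γ t)
  /-- the positions of walker `i` after `0, 1, …, T` of its moves form a Markov chain with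
  transition probabilities `walk n w` -/
  faithful : ∀ (i : Fin k) (T : ℕ) (x : ℕ → Fin n),
    ∑ γ : Fin (k * T + 1) → Fin k → Fin n with
        (∀ (t : Fin (k * T + 1)) (s : ℕ), (t : ℕ) = k * s → γ t i = x s), pathProb μ K (k * T) γ =
      (∑ c with c i = x 0, μ c) * ∏ s ∈ range T, walk n w (x s) (x (s + 1))

end Pool.Agent.MP_1dd261_pr
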