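import Pool.Agent.MP_1dd261_pr.Parts

/-! The frame coupling is a Markovian avoidance coupling. -/

namespace Pool.Agent.MP_1dd261_pr

open Finset
open scoped Classical

variable {n k : ℕ} [NeZero k] {P : Type} [Fintype P] (pt : Fin n → P) (φ : Fin k → P ≃ P) (w : ℝ)

/-- The law of the new frame as walker `j` sees it. -/
noncomputable def GG (j : Fin k) (c : Fin k → Fin n) (f' : P) : ℝ :=
  if j = 0 then FF pt w ((φ j).symm (pt (c j))) f' else if pt (c 0) = φ 0 f' then 1 else 0

/-- The moves. -/
noncomputable def KK (j : Fin k) (c : Fin k → Fin n) (v : Fin n) : ℝ :=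
  ∑ f', GG pt φ w j c f' * rr pt φ w j c ((φ j).symm (pt (c j))) f' v

/-- The initial law. -/
noncomputable def mu (c : Fin k → Fin n) : ℝ := ∑ f, sz pt f / n * ∏ l, uni pt (φ l f) (c l)

/-- The invariant: given the past of walker `i`, the walkers are independent, and the later ones
are uniform on their parts. -/
def Inv (i : Fin k) (x : Fin n) (ν : (Fin k → Fin n) → ℝ) (M : ℝ) : Prop :=
  ∃ (f : P) (q : Fin k → Fin n → ℝ), (∀ c, ν c = M * ∏ l, q l (c l)) ∧ (∀ l, ∑ v, q l v = 1) ∧
    (∀ l v, q l v ≠ 0 → pt v = φ l f) ∧ (∀ v, q i v = if v = x then 1 else 0) ∧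
    ∀ l, i < l → q l = uni pt (φ l f)

variable {pt φ w}

omit [NeZero k] [Fintype P] in
theorem uni_ne {p : P} {v : Fin n} (h : uni pt p v ≠ 0) : pt v = p := by
  by_contra h'
  exact h (if_neg h')

omit [NeZero k] [Fintype P] in
theorem rr_congr (j : Fin k) {c c' : Fin k → Fin n} (h : ∀ l, j ≤ l → c l = c' l) (f f' : P)
    (v : Fin n) : rr pt φ w j c f f' v = rr pt φ w j c' f f' v := by
  unfold rr
  congr 1
  refine prod_congr rfl fun l _ => ?_
  split_ifs with h1
  · rw [h l h1.1]
  · rfl

theorem round (hs : ∀ p, 2 ≤ sz pt p) (hw : 0 ≤ w) (c : Fin k → Fin n) (f : P)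
    (hc : ∀ l, pt (c l) = φ l f) (j : ℕ) (hj : j ≤ k) (d : Fin k → Fin n) :
    steps (fun d => if d = c then 1 else 0) (KK pt φ w) j d = ∑ f', FF pt w f f' *
      ∏ l : Fin k, if (l : ℕ) < j then rr pt φ w l c f f' (d l) else if d l = c l then 1 else 0 := by
  induction j generalizing d with
  | zero =>
    simp only [steps, Nat.not_lt_zero, if_false, ← sum_mul, sum_FF hs hw, one_mul, prod_boole,
      mem_univ, true_imp_iff, funext_iff]
  | succ j ih =>
    obtain ⟨J, rfl⟩ : ∃ J : Fin k, (J : ℕ) = j := ⟨⟨j, hj⟩, rfl⟩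
    have hJ : Fin.ofNat k J = J := Fin.ext (Nat.mod_eq_of_lt J.2)
    set e := Function.update d J (c J) with he
    have h1 : ∀ f', (∏ l : Fin k, if (l : ℕ) < J + 1 then rr pt φ w l c f f' (d l)
        else if d l = c l then 1 else 0) = (∏ l : Fin k, if (l : ℕ) < J then
        rr pt φ w l c f f' (e l) else if e l = c l then 1 else 0) * rr pt φ w J e f f' (d J) := by
      intro f'
      by_cases h : ∀ l, J ≤ l → e l = c l
      · rw [rr_congr J h, ← mul_prod_erase _ _ (mem_univ J), ← mul_prod_erase univ _ (mem_univ J),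
          if_pos (Nat.lt_succ_self _), if_neg (lt_irrefl _), if_pos (h J le_rfl), one_mul,
          mul_comm]
        congr 1
        refine prod_congr rfl fun l hl => ?_
        have h2 := ne_of_mem_erase hl
        have h3 : (l : ℕ) ≠ J := fun h => h2 (Fin.ext h)
        rw [he, Function.update_of_ne h2]
        exact if_congr (by omega) rfl rfl
      · push Not at h
        obtain ⟨l, h2, h3⟩ := h
        have h4 : l ≠ J := fun h => h3 (by rw [h, he, Function.update_self])
        have h5 : (J : ℕ) < l := lt_of_le_of_ne h2 fun h => h4 (Fin.ext h.symm)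
        rw [prod_eq_zero (mem_univ l), prod_eq_zero (mem_univ l), zero_mul]
        · rw [if_neg (by omega), if_neg h3]
        · rw [if_neg (by omega), if_neg (by rwa [he, Function.update_of_ne h4] at h3)]
    rw [steps, hJ]
    dsimp only
    rw [sum_turn, sum_eq_single (c J), ← he, ih (by omega)]
    · simp only [h1, KK, GG]
      rw [show e J = c J from Function.update_self _ _ _, hc, Equiv.symm_apply_apply]
      by_cases h0 : J = 0
      · simp only [h0, if_true, Fin.val_zero, Nat.not_lt_zero, if_false, ← sum_mul, sum_FF hs hw,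
          one_mul, mul_sum]
        exact sum_congr rfl fun _ _ => mul_left_comm _ _ _
      · simp only [h0, if_false, sum_mul]
        refine sum_congr rfl fun f' _ => ?_
        rw [mul_assoc]
        by_cases h : pt (e 0) = φ 0 f'
        · simp [h]
        · rw [prod_eq_zero (mem_univ 0), zero_mul, zero_mul]
          rw [if_pos (show ((0 : Fin k) : ℕ) < J from Fin.pos_iff_ne_zero.2 h0), rr, uni,
            if_neg h, zero_mul]
    · intro u _ hu
      rw [ih (by omega), sum_eq_zero, zero_mul]
      intro f' _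
      rw [prod_eq_zero (mem_univ J), mul_zero]
      rw [if_neg (lt_irrefl _), Function.update_self, if_neg hu]
    · simp

omit [NeZero k] in
theorem inv_restrict (i : Fin k) (y : Fin n) (f : P) (hy : pt y = φ i f) (C : P → ℝ)
    (q : P → Fin k → Fin n → ℝ) (h1 : ∀ g l, ∑ v, q g l v = 1)
    (h2 : ∀ g l v, q g l v ≠ 0 → pt v = φ l g) (h3 : ∀ g l, i < l → q g l = uni pt (φ l g)) :
    Inv pt φ i y (fun d => if d i = y then ∑ g, C g * ∏ l, q g l (d l) else 0)
      (C f * q f i y) := by
  refine ⟨f, Function.update (q f) i fun v => if v = y then 1 else 0, fun d => ?_, fun l => ?_,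
    fun l v => ?_, fun v => by simp, fun l hl => ?_⟩
  · rw [← mul_prod_erase _ _ (mem_univ i), Function.update_self,
      prod_congr rfl fun l hl => by rw [Function.update_of_ne (ne_of_mem_erase hl)]]
    dsimp only
    split_ifs with h
    · rw [sum_eq_single f, ← mul_prod_erase _ _ (mem_univ i), h]
      · ring
      · intro g _ hg
        rw [prod_eq_zero (mem_univ i), mul_zero]
        by_contra h4
        exact hg ((φ i).injective ((h2 _ _ _ h4).symm.trans (h ▸ hy)))
      · simp
    · simp
  · by_cases h : l = i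
    · simp [h]
    · rw [Function.update_of_ne h, h1]
  · by_cases h : l = i
    · subst h
      simp only [Function.update_self, ne_eq, ite_eq_right_iff, one_ne_zero, imp_false, not_not]
      rintro rfl
      exact hy
    · rw [Function.update_of_ne h]
      exact h2 _ _ _
  · rw [Function.update_of_ne hl.ne', h3 _ _ hl]

omit [NeZero k] [Fintype P] in
theorem inv_sum {i : Fin k} {x : Fin n} {ν : (Fin k → Fin n) → ℝ} {M : ℝ}
    (h : Inv pt φ i x ν M) : ∑ c, ν c = M := by
  obtain ⟨f, q, h1, h2, -⟩ := h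
  simp only [h1, ← mul_sum]
  rw [← Fintype.piFinset_univ, ← prod_univ_sum]
  simp [h2]

theorem inv_step (hs : ∀ p, 2 ≤ sz pt p) (hw : 0 ≤ w) (hφ : ∀ f i j, φ i f = φ j f → i = j)
    (hz : ∀ j f, sz pt (φ j f) = sz pt f) (i : Fin k) (x : Fin n) (ν : (Fin k → Fin n) → ℝ)
    (M : ℝ) (y : Fin n) (h : Inv pt φ i x ν M) :
    Inv pt φ i y (fun c => if c i = y then steps ν (KK pt φ w) k c else 0) (M * walk n w x y) := by
  obtain ⟨f, q, h1, h2, h3, h4, h5⟩ := h
  have hx : pt x = φ i f := h3 i x (by simp [h4])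
  obtain ⟨g, hy⟩ := (φ i).surjective (pt y)
  have e1 : ∀ d, steps ν (KK pt φ w) k d =
      ∑ g, M * FF pt w f g * ∏ l, mix pt φ w l q f g (d l) := fun d => by
    simp only [← push hφ q h2, mul_sum]
    rw [steps_linear, sum_comm]
    refine sum_congr rfl fun c _ => ?_
    by_cases hc : ∀ l, pt (c l) = φ l f
    · simp only [round hs hw c f hc k le_rfl, Fin.is_lt, if_true, h1, mul_sum]
      exact sum_congr rfl fun _ _ => by ring
    · obtain ⟨l, hl⟩ := not_forall.1 hc
      have : ∏ l, q l (c l) = 0 := prod_eq_zero (mem_univ l) (by_contra fun h => hl (h3 _ _ h))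
      simp [h1, this]
  have e2 : ∀ j l v, i < l → ∑ u, q l u * hh pt (th w l j) u v = 1 := fun j l v hl => by
    simp only [h5 l hl, hh_comm _ _ v]
    exact sum_uni_hh hs (th_nonneg hw _ _) _ _
  have e3 : M * walk n w x y = M * FF pt w f g * mix pt φ w i q f g y := by
    have a1 := hs f
    have a2 := hs g
    have a3 : w + sz pt f - 1 ≠ 0 := by linarith
    have a4 : sz pt g ≠ 0 := by linarith
    rw [mix, prod_eq_single i, uni, if_pos hy.symm, hz, mul_assoc, walk, FF]
    · congr 1
      by_cases hg : g = f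
      · subst hg
        simp only [le_rfl, and_self, if_true, h4, ite_mul, one_mul, zero_mul, sum_ite_eq',
          mem_univ, hh, hx, ← hy, hz, th, eq_comm (a := x)]
        split_ifs <;> field_simp
      · rw [if_neg hg, if_neg (show ¬ (i ≤ i ∧ φ i f = φ i g) from
          fun h => hg ((φ i).injective h.2).symm), if_neg (show ¬ y = x from
          fun h => hg ((φ i).injective (hy.trans (h ▸ hx))))]
        field_simp
    · intro l _ hl
      split_ifs with h
      · exact e2 i l y (lt_of_le_of_ne h.1 (Ne.symm hl))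
      · rfl
    · simp
  simp only [e1, e3]
  refine inv_restrict i y g hy.symm (fun g => M * FF pt w f g) (fun g l => mix pt φ w l q f g)
    (fun g l => sum_mix hs hw hφ q h2 l f g) (fun g l v h => uni_ne (left_ne_zero_of_mul h))
    fun g j hj => funext fun v => ?_
  rw [mix, prod_eq_one, mul_one]
  intro l _
  split_ifs with h
  · exact e2 j l v (hj.trans_le h.1)
  · rfl

theorem avoid_step (hφ : ∀ f i j, φ i f = φ j f → i = j) (j : Fin k) (c : Fin k → Fin n)
    (v : Fin n) (f g : P) (h1 : ∀ l, l < j → pt (c l) = φ l g) (h2 : ∀ l, j ≤ l → pt (c l) = φ l f)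
    (h3 : Function.Injective c) (h : KK pt φ w j c v ≠ 0) :
    ∃ g, (∀ l, l ≤ j → pt (Function.update c j v l) = φ l g) ∧
      (∀ l, j < l → pt (Function.update c j v l) = φ l f) ∧
      Function.Injective (Function.update c j v) := by
  obtain ⟨g', -, hg⟩ := exists_ne_zero_of_sum_ne_zero h
  rw [h2 j le_rfl, Equiv.symm_apply_apply] at hg
  have h4 : ∀ l, l < j → pt (c l) = φ l g' := fun l hl => by
    have h0 : 0 < j := (Fin.zero_le l).trans_lt hl
    have h5 := left_ne_zero_of_mul hg
    rw [GG, if_neg h0.ne', h1 0 h0] at h5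
    rw [h1 l hl, (φ 0).injective (by_contra fun h => h5 (if_neg h) : φ 0 g = φ 0 g')]
  have h5 : pt v = φ j g' := uni_ne (left_ne_zero_of_mul (right_ne_zero_of_mul hg))
  have h6 : ∀ l, l ≠ j → c l ≠ v := fun l hl hv => by
    rcases lt_or_gt_of_ne hl with h | h
    · exact hl (hφ g' l j (by rw [← h4 l h, hv, h5]))
    · refine right_ne_zero_of_mul (right_ne_zero_of_mul hg) (prod_eq_zero (mem_univ l) ?_)
      rw [if_pos ⟨h.le, by rw [← h2 l h.le, hv, h5]⟩, hv]
      simp [hh, th, hl]
  refine ⟨g', fun l hl => ?_, fun l hl => ?_, fun a b hab => ?_⟩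
  · rcases hl.eq_or_lt with rfl | hl
    · rw [Function.update_self, h5]
    · rw [Function.update_of_ne hl.ne, h4 l hl]
  · rw [Function.update_of_ne hl.ne', h2 l hl.le]
  · by_cases ha : a = j <;> by_cases hb : b = j
    · rw [ha, hb]
    · rw [ha, Function.update_self, Function.update_of_ne hb] at hab
      exact absurd hab.symm (h6 b hb)
    · rw [hb, Function.update_self, Function.update_of_ne ha] at hab
      exact absurd hab (h6 a ha)
    · rw [Function.update_of_ne ha, Function.update_of_ne hb] at hab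
      exact h3 hab

theorem isMAC_frame [Nonempty P] (hs : ∀ p, 2 ≤ sz pt p) (hw : 0 ≤ w)
    (hφ : ∀ f i j, φ i f = φ j f → i = j) (hz : ∀ j f, sz pt (φ j f) = sz pt f) :
    IsMAC w (mu pt φ) (KK pt φ w) := by
  have hn : (0 : ℝ) < n := by
    have h1 := hs (Classical.arbitrary P)
    have h2 := sz_le (pt := pt) (Classical.arbitrary P)
    linarith
  have hk := Nat.pos_of_ne_zero (NeZero.ne k)
  refine ⟨fun c => sum_nonneg fun f _ => mul_nonneg (div_nonneg (by linarith [hs f]) hn.le)
    (prod_nonneg fun _ _ => uni_nonneg _ _), ?_, fun j c v => sum_nonneg fun f _ =>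
    mul_nonneg ?_ (rr_nonneg hs hw _ _ _ _ _), fun j c => ?_,
    avoid_of_inv _ _ (fun t c => ∃ f g, (∀ l, l < Fin.ofNat k t → pt (c l) = φ l g) ∧
      (∀ l, Fin.ofNat k t ≤ l → pt (c l) = φ l f) ∧ Function.Injective c) (fun c hc => ?_)
      (fun t c v h hv => ?_) (fun t c ⟨_, _, h⟩ => h.2.2),
    fun i => faithful_of_inv _ _ w i (Inv pt φ i) (fun x => ?_) (inv_step hs hw hφ hz i)
      fun _ _ _ => inv_sum⟩
  · simp only [mu]
    rw [sum_comm]
    simp only [← mul_sum]
    rw [← Fintype.piFinset_univ]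
    simp only [← prod_univ_sum, sum_uni hs, prod_const_one, mul_one, ← sum_div, sum_sz]
    exact div_self hn.ne'
  · unfold GG
    split_ifs
    · exact FF_nonneg hs hw _ _
    · exact zero_le_one
    · exact le_rfl
  · simp only [KK]
    rw [sum_comm]
    simp only [← mul_sum, sum_rr hs hw hφ, mul_one, GG]
    split_ifs
    · exact sum_FF hs hw _
    · simp [← Equiv.symm_apply_eq]
  · obtain ⟨f, -, hf⟩ := exists_ne_zero_of_sum_ne_zero hc
    have h1 : ∀ l, pt (c l) = φ l f := fun l =>
      uni_ne (prod_ne_zero_iff.1 (right_ne_zero_of_mul hf) l (mem_univ l))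
    exact ⟨f, f, fun l _ => h1 l, fun l _ => h1 l,
      fun a b hab => hφ f a b (by rw [← h1, ← h1, hab])⟩
  · obtain ⟨f, g, h1, h2, h3⟩ := h
    obtain ⟨g', h4, h5, h6⟩ := avoid_step hφ _ c v f g h1 h2 h3 hv
    have h7 := Nat.mod_lt t hk
    have h8 : (t + 1) % k = (t % k + 1) % k := (Nat.mod_add_mod t k 1).symm
    by_cases h9 : t % k + 1 < k
    · rw [Nat.mod_eq_of_lt h9] at h8
      exact ⟨f, g', fun l hl => h4 l (show (l : ℕ) ≤ t % k by
          have : (l : ℕ) < (t + 1) % k := hl
          omega), fun l hl => h5 l (show t % k < l by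
          have : (t + 1) % k ≤ l := hl
          omega), h6⟩
    · have h10 : ∀ l : Fin k, l ≤ Fin.ofNat k t := fun l => show (l : ℕ) ≤ t % k by omega
      exact ⟨g', g', fun l _ => h4 l (h10 l), fun l _ => h4 l (h10 l), h6⟩
  · obtain ⟨f, hf⟩ := (φ i).surjective (pt x)
    have h := inv_restrict i x f hf.symm (fun f => sz pt f / n) (fun f l => uni pt (φ l f))
      (fun _ _ => sum_uni hs _) (fun _ _ _ => uni_ne) fun _ _ _ => rfl
    rw [sum_filter]
    exact inv_sum h ▸ h

end Pool.Agent.MP_1dd261_pr
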