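import Pool.Agent.MP_1dd261_pr.Frame

/-! Blocks of parts of equal size. -/

namespace Pool.Agent.MP_1dd261_pr

open Finset
open scoped Classical

theorem exists_pt {n : ℕ} {P : Type} [Fintype P] (s : P → ℕ) (h : ∑ p, s p = n) :
    ∃ pt : Fin n → P, ∀ p, sz pt p = s p := by
  have e : Fin n ≃ Σ p, Fin (s p) := (Fintype.equivFinOfCardEq (by simp [h])).symm
  refine ⟨fun v => (e v).1, fun p => ?_⟩
  have h1 := sum_part (pt := fun v => (e v).1) p 1
  rw [mul_one] at h1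
  rw [← h1, e.sum_comp fun x => if x.1 = p then (1 : ℝ) else 0, Fintype.sum_sigma,
    sum_eq_single p]
  · simp
  · intro q _ hq
    simp [hq]
  · simp

theorem exists_shift (k m : ℕ) [NeZero k] (h : k ≤ m) :
    ∃ ψ : Fin k → Fin m ≃ Fin m, ∀ f i j, ψ i f = ψ j f → i = j := by
  have : NeZero m := ⟨fun h0 => NeZero.ne k (by omega)⟩
  exact ⟨fun j => Equiv.addLeft (Fin.castLE h j), fun f i j h' =>
    Fin.castLE_injective h (add_right_cancel h')⟩

theorem exists_isMAC {k : ℕ} [NeZero k] {w : ℝ} (hw : 0 ≤ w) {ι : Type} [Fintype ι] [Nonempty ι]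
    (a m : ι → ℕ) (ha : ∀ i, 2 ≤ a i) (hm : ∀ i, k ≤ m i) (n : ℕ) (hn : n = ∑ i, a i * m i) :
    ∃ (μ : (Fin k → Fin n) → ℝ) (K : Fin k → (Fin k → Fin n) → Fin n → ℝ), IsMAC w μ K := by
  obtain ⟨pt, hpt⟩ := exists_pt (n := n) (fun p : Σ i, Fin (m i) => a p.1)
    (by simp [hn, Fintype.sum_sigma, mul_comm])
  choose ψ hψ using fun i => exists_shift k (m i) (hm i)
  have : Nonempty (Σ i, Fin (m i)) := ⟨⟨Classical.arbitrary ι,
    Fin.castLE (hm _) 0⟩⟩
  refine ⟨_, _, isMAC_frame (pt := pt) (φ := fun j => Equiv.sigmaCongrRight fun i => ψ i j)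
    (fun p => ?_) hw ?_ fun j f => by simp [hpt]⟩
  · rw [hpt]
    exact_mod_cast ha _
  · rintro ⟨b, f⟩ i j h
    exact hψ b f i j (eq_of_heq (Sigma.mk.inj h).2)

end Pool.Agent.MP_1dd261_pr
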