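import Pool.Agent.MP_1dd261_pr.Two

/-! Two walkers on at most three vertices: necessary conditions. -/

namespace Pool.Agent.MP_1dd261_pr

open Finset
open scoped Classical

variable {n k : ℕ} {w : ℝ}

theorem cyl_inj [NeZero k] {μ : (Fin k → Fin n) → ℝ} {K : Fin k → (Fin k → Fin n) → Fin n → ℝ}
    (h : IsMAC w μ K) (A : ℕ → (Fin k → Fin n) → Prop) (T : ℕ) (c : Fin k → Fin n)
    (hc : cyl μ K A T c ≠ 0) : Function.Injective c := by
  rw [← sum_path] at hc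
  obtain ⟨γ, -, hγ⟩ := exists_ne_zero_of_sum_ne_zero hc
  split_ifs at hγ with h1
  · exact h1.2 ▸ h.avoid T γ hγ _
  · exact absurd rfl hγ

theorem exists_start [NeZero k] {μ : (Fin k → Fin n) → ℝ}
    {K : Fin k → (Fin k → Fin n) → Fin n → ℝ} (h : IsMAC w μ K) (i : Fin k) :
    ∃ x, ∑ c with c i = x, μ c ≠ 0 := by
  by_contra h1
  push Not at h1
  have h2 := sum_fiberwise univ (fun c : Fin k → Fin n => c i) μ
  simp [h1, h.init_sum] at h2

/-- The laws along a prescribed trajectory of one of two walkers. -/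
theorem exists_laws {μ : (Fin 2 → Fin n) → ℝ} {K : Fin 2 → (Fin 2 → Fin n) → Fin n → ℝ}
    (h : IsMAC w μ K) (i : Fin 2) (x : ℕ → Fin n) :
    ∃ ν ρ : ℕ → Fin n → Fin n → ℝ, (∀ T a, ν T a a = 0) ∧ (∀ T a, ρ T a a = 0) ∧
      (∀ T a b, ![a, b] i ≠ x T → ν T a b = 0) ∧
      (∀ T a u, ρ T a u = ∑ u', ν T u' u * K 0 ![u', u] a) ∧
      (∀ T a b, ![a, b] i = x (T + 1) → ν (T + 1) a b = ∑ u, ρ T a u * K 1 ![a, u] b) ∧
      ∀ T, ∑ a, ∑ b, ν T a b =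
        (∑ c with c i = x 0, μ c) * ∏ s ∈ range T, walk n w (x s) (x (s + 1)) := by
  have hn : ∀ a : Fin n, ¬ Function.Injective ![a, a] := fun a ha =>
    absurd (ha (show ![a, a] 0 = ![a, a] 1 from rfl)) (by decide)
  have e : ∀ T a u, cyl μ K (fun t c => ∀ s, t = 2 * s → c i = x s) (2 * T + 1) ![a, u] =
      ∑ u', cyl μ K (fun t c => ∀ s, t = 2 * s → c i = x s) (2 * T) ![u', u] *
        K 0 ![u', u] a := fun T a u => by
    rw [cyl_round μ K i x T 1 one_lt_two, ← turn_zero]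
    rfl
  refine ⟨fun T a b => cyl μ K (fun t c => ∀ s, t = 2 * s → c i = x s) (2 * T) ![a, b],
    fun T a b => cyl μ K (fun t c => ∀ s, t = 2 * s → c i = x s) (2 * T + 1) ![a, b],
    fun T a => by_contra fun h1 => hn a (cyl_inj h _ _ _ h1),
    fun T a => by_contra fun h1 => hn a (cyl_inj h _ _ _ h1), fun T a b h1 => ?_, e,
    fun T a b h1 => ?_, fun T => ?_⟩
  · rcases T with _ | T
    · exact if_neg fun h2 => h1 (h2 0 rfl)
    · simp only [cyl_succ, if_neg h1]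
  · simp only [cyl_succ, if_pos h1, steps_two, e]
  · rw [← sum_two, ← sum_path', ← h.faithful]

theorem not_two {μ : (Fin 2 → Fin n) → ℝ} {K : Fin 2 → (Fin 2 → Fin n) → Fin n → ℝ}
    (hw : 0 ≤ w) (h : IsMAC w μ K) : 3 ≤ n := by
  obtain ⟨x, hx⟩ := exists_start h 0
  obtain ⟨c, -, hc⟩ := exists_ne_zero_of_sum_ne_zero hx
  have h1 : 2 ≤ n := by simpa using Fintype.card_le_of_injective c (cyl_inj h (fun _ _ => True) 0 c
    (by simpa [cyl] using hc))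
  by_contra h2
  obtain rfl : n = 2 := by omega
  obtain ⟨y, hy, hy'⟩ := (by decide : ∀ x : Fin 2, ∃ y, y ≠ x ∧ ∀ u, u = x ∨ u = y) x
  obtain ⟨ν, ρ, f1, f2, f3, f4, f5, f6⟩ := exists_laws h 0 fun s => if s = 0 then x else y
  have h3 : ∀ u, ρ 0 y u = 0 := fun u => by
    rcases hy' u with rfl | rfl
    · rw [f4]
      refine sum_eq_zero fun a _ => mul_eq_zero_of_left ?_ _
      rcases hy' a with rfl | rfl
      · exact f1 _ _
      · exact f3 _ _ _ hy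
    · exact f2 _ _
  have h4 := f6 1
  rw [sum_eq_zero fun a _ => sum_eq_zero fun b _ => ?_] at h4
  · have h5 : w + 2 - 1 ≠ 0 := by linarith
    simp [hx, walk, hy, h5] at h4
  · rcases hy' a with rfl | rfl
    · exact f3 _ _ _ hy.symm
    · simp [f5 0 a b rfl, h3]

theorem nec_three {μ : (Fin 2 → Fin 3) → ℝ} {K : Fin 2 → (Fin 2 → Fin 3) → Fin 3 → ℝ}
    (hw : 0 ≤ w) (h : IsMAC w μ K) : 2 ≤ w := by
  have hp : ∀ x y : Fin 3, y ≠ x → walk 3 w x y = 1 / (w + 2) := fun x y hy => by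
    rw [walk, if_neg hy]
    push_cast
    ring
  have hp0 : 0 < 1 / (w + 2) := by positivity
  have hu : ∀ x : Fin 3, ∃ u, u ≠ x ∧ 0 ≠ u := by decide
  have hA : K 0 ![1, 2] 0 * K 1 ![1, 2] 2 = 1 / (w + 2) := by
    obtain ⟨x, hx⟩ := exists_start h 0
    obtain ⟨u, h1, h2⟩ := hu x
    obtain ⟨ν, ρ, f1, f2, f3, f4, f5, f6⟩ := exists_laws h 0 fun s => [x, u, 0, 1].getD s 0
    have g3 := f6 3
    have g4 := f6 4
    have a1 : ∀ b, ν 2 1 b = 0 := fun b => f3 2 1 b (show (1 : Fin 3) ≠ 0 by decide)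
    have a2 : ∀ b, ν 2 2 b = 0 := fun b => f3 2 2 b (show (2 : Fin 3) ≠ 0 by decide)
    have a3 : ∀ b, ν 3 0 b = 0 := fun b => f3 3 0 b (show (0 : Fin 3) ≠ 1 by decide)
    have a4 : ∀ b, ν 3 2 b = 0 := fun b => f3 3 2 b (show (2 : Fin 3) ≠ 1 by decide)
    have a5 : ∀ b, ν 4 1 b = 0 := fun b => f3 4 1 b (show (1 : Fin 3) ≠ 0 by decide)
    have a6 : ∀ b, ν 4 2 b = 0 := fun b => f3 4 2 b (show (2 : Fin 3) ≠ 0 by decide)
    have b1 : ρ 2 1 0 = 0 := by simp [f4, Fin.sum_univ_three, f1, a1, a2]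
    have b2 : ∀ b, ν 3 1 b = ρ 2 1 2 * K 1 ![1, 2] b := fun b => by
      simp [f5 2 1 b rfl, Fin.sum_univ_three, b1, f2]
    have b3 : ρ 3 0 1 = 0 := by simp [f4, Fin.sum_univ_three, f1, a3, a4]
    have b4 : ∀ b, ν 4 0 b = ρ 3 0 2 * K 1 ![0, 2] b := fun b => by
      simp [f5 3 0 b rfl, Fin.sum_univ_three, b3, f2]
    have b5 : ρ 3 0 2 = ρ 2 1 2 * K 1 ![1, 2] 2 * K 0 ![1, 2] 0 := by
      simp [f4 3, Fin.sum_univ_three, a3, a4, b2]
    rw [Fin.sum_univ_three] at g3 g4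
    rw [prod_range_succ, ← mul_assoc, ← g3] at g4
    simp only [a3, a4, a5, a6, b2, b4, b5, sum_const_zero, ← mul_sum, h.step_sum, add_zero,
      zero_add, mul_one] at g3 g4
    have c1 : ρ 2 1 2 ≠ 0 := by
      rw [g3]
      simp [prod_range_succ, hp _ _ h1, hp _ _ h2, hp 0 1 (by decide), hx,
        show w + 2 ≠ 0 by linarith]
    rw [mul_assoc, mul_right_inj' c1, mul_comm] at g4
    exact g4.trans (hp 1 0 (by decide))
  have hB : K 0 ![1, 2] 1 * K 1 ![1, 2] 0 = 1 / (w + 2) := by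
    obtain ⟨x, hx⟩ := exists_start h 1
    obtain ⟨u, h1, h2⟩ := hu x
    obtain ⟨ν, ρ, f1, f2, f3, f4, f5, f6⟩ := exists_laws h 1 fun s => [x, u, 0, 2].getD s 0
    have g3 := f6 3
    have g4 := f6 4
    have a1 : ∀ a, ν 2 a 1 = 0 := fun a => f3 2 a 1 (show (1 : Fin 3) ≠ 0 by decide)
    have a2 : ∀ a, ν 2 a 2 = 0 := fun a => f3 2 a 2 (show (2 : Fin 3) ≠ 0 by decide)
    have a3 : ∀ a, ν 3 a 0 = 0 := fun a => f3 3 a 0 (show (0 : Fin 3) ≠ 2 by decide)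
    have a4 : ∀ a, ν 3 a 1 = 0 := fun a => f3 3 a 1 (show (1 : Fin 3) ≠ 2 by decide)
    have a5 : ∀ a, ν 4 a 1 = 0 := fun a => f3 4 a 1 (show (1 : Fin 3) ≠ 0 by decide)
    have a6 : ∀ a, ν 4 a 2 = 0 := fun a => f3 4 a 2 (show (2 : Fin 3) ≠ 0 by decide)
    have b1 : ∀ a, ρ 2 a 1 = 0 := fun a => by simp [f4, a1]
    have b2 : ∀ a, ρ 2 a 2 = 0 := fun a => by simp [f4, a2]
    have b3 : ν 3 0 2 = 0 := by simp [f5 2 0 2 rfl, Fin.sum_univ_three, b1, b2, f2]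
    have b4 : ∀ a, ρ 3 a 0 = 0 := fun a => by simp [f4, a3]
    have b5 : ∀ a, ρ 3 a 1 = 0 := fun a => by simp [f4, a4]
    have b6 : ν 4 2 0 = 0 := by simp [f5 3 2 0 rfl, Fin.sum_univ_three, b4, b5, f2]
    have b7 : ν 4 1 0 = ν 3 1 2 * (K 0 ![1, 2] 1 * K 1 ![1, 2] 0) := by
      simp [f5 3 1 0 rfl, Fin.sum_univ_three, b4, b5, f4 3 1 2, b3, f1, mul_assoc]
    rw [prod_range_succ, ← mul_assoc, ← g3] at g4
    simp only [Fin.sum_univ_three, a3, a4, a5, a6, b3, b6, b7, f1, add_zero, zero_add] at g3 g4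
    have c1 : ν 3 1 2 ≠ 0 := by
      rw [g3]
      simp [prod_range_succ, hp _ _ h1, hp _ _ h2, hp 0 2 (by decide), hx,
        show w + 2 ≠ 0 by linarith]
    rw [mul_right_inj' c1] at g4
    exact g4.trans (hp 2 0 (by decide))
  have s0 := h.step_sum 0 ![1, 2]
  have s1 := h.step_sum 1 ![1, 2]
  rw [Fin.sum_univ_three] at s0 s1
  have n0 := h.step_nonneg 0 ![1, 2]
  have n1 := h.step_nonneg 1 ![1, 2]
  have d0 : K 0 ![1, 2] 0 * K 0 ![1, 2] 1 ≤ 1 / 4 := by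
    nlinarith [n0 0, n0 1, n0 2, sq_nonneg (K 0 ![1, 2] 0 - K 0 ![1, 2] 1)]
  have d1 : K 1 ![1, 2] 2 * K 1 ![1, 2] 0 ≤ 1 / 4 := by
    nlinarith [n1 0, n1 1, n1 2, sq_nonneg (K 1 ![1, 2] 0 - K 1 ![1, 2] 2)]
  have d2 := mul_le_mul d0 d1 (mul_nonneg (n1 2) (n1 0)) (by norm_num)
  rw [mul_mul_mul_comm, hA, hB] at d2
  have d3 := (mul_self_le_mul_self_iff hp0.le (by norm_num)).2 d2
  rw [div_le_div_iff₀ (by linarith) (by norm_num)] at d3
  linarith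

end Pool.Agent.MP_1dd261_pr
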