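import Pool.Agent.MP_1dd261_pr.Core

/-! The coupling built from a partition of the vertices into parts and `k` disjoint relabellings
of the parts. -/

namespace Pool.Agent.MP_1dd261_pr

open Finset
open scoped Classical

theorem one_wit {ι V : Type} [Fintype ι] [Fintype V] (p : ι → Prop) [DecidablePred p]
    (hp : ∀ a b, p a → p b → a = b) (q : V → ℝ) (hq : ∑ u, q u = 1) (g : ι → V → ℝ) :
    ∑ u, q u * ∏ j, (if p j then g j u else 1) = ∏ j, if p j then ∑ u, q u * g j u else 1 := by
  by_cases h : ∃ j, p j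
  · obtain ⟨j, hj⟩ := h
    have e : ∀ G : ι → ℝ, ∏ l, (if p l then G l else 1) = G j := fun G => by
      rw [prod_eq_single j, if_pos hj]
      · intro b _ hb
        exact if_neg fun h => hb (hp _ _ h hj)
      · simp
    simp only [e]
  · simp only [not_exists] at h
    simp [h, hq]

variable {n k : ℕ} {P : Type} (pt : Fin n → P) (φ : Fin k → P ≃ P) (w : ℝ)

/-- The size of a part. -/
noncomputable def sz (p : P) : ℝ := ((univ.filter fun v => pt v = p).card : ℝ)

/-- The uniform law on a part. -/
noncomputable def uni (p : P) (v : Fin n) : ℝ := if pt v = p then 1 / sz pt p else 0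

/-- The density that gives weight `θ` to the vertex `x` inside its part. -/
noncomputable def hh (θ : ℝ) (x v : Fin n) : ℝ :=
  if pt x = pt v then (if x = v then θ else 1) * sz pt (pt v) / (θ + sz pt (pt v) - 1) else 1

/-- The weight a moving walker gives to its own vertex and to the vertex of another walker. -/
noncomputable def th (l j : Fin k) : ℝ := if l = j then w else 0

/-- The law of the move of walker `j` when the frame changes from `f` to `f'`. -/
noncomputable def rr (j : Fin k) (c : Fin k → Fin n) (f f' : P) (v : Fin n) : ℝ :=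
  uni pt (φ j f') v *
    ∏ l, if j ≤ l ∧ φ l f = φ j f' then hh pt (th w l j) (c l) v else 1

/-- The same law when the walkers are independent with laws `q l`. -/
noncomputable def mix (j : Fin k) (q : Fin k → Fin n → ℝ) (f f' : P) (v : Fin n) : ℝ :=
  uni pt (φ j f') v *
    ∏ l, if j ≤ l ∧ φ l f = φ j f' then ∑ u, q l u * hh pt (th w l j) u v else 1

/-- The transition probabilities of the frame. -/
noncomputable def FF (f f' : P) : ℝ :=
  (if f' = f then w + sz pt f - 1 else sz pt f') / (w + n - 1)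

variable {pt φ w}

theorem sum_part (p : P) (a : ℝ) : ∑ v, (if pt v = p then a else 0) = sz pt p * a := by
  rw [← sum_filter, sum_const, nsmul_eq_mul, sz]

theorem sum_uni (hs : ∀ p, 2 ≤ sz pt p) (p : P) : ∑ v, uni pt p v = 1 := by
  have := hs p
  simp only [uni]
  rw [sum_part, mul_one_div_cancel (by linarith)]

theorem hh_comm (θ : ℝ) (x v : Fin n) : hh pt θ x v = hh pt θ v x := by
  unfold hh
  by_cases h : pt x = pt v
  · rw [if_pos h, if_pos h.symm, h, if_congr eq_comm rfl rfl]
  · rw [if_neg h, if_neg (Ne.symm h)]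

theorem sum_uni_hh (hs : ∀ p, 2 ≤ sz pt p) {θ : ℝ} (hθ : 0 ≤ θ) (p : P) (x : Fin n) :
    ∑ v, uni pt p v * hh pt θ x v = 1 := by
  have h2 := hs p
  have h3 : θ + sz pt p - 1 ≠ 0 := by linarith
  have h4 : sz pt p ≠ 0 := by linarith
  by_cases h : pt x = p
  · have e : ∀ v, uni pt p v * hh pt θ x v = (if pt v = p then 1 / (θ + sz pt p - 1) else 0) +
        if x = v then (θ - 1) / (θ + sz pt p - 1) else 0 := fun v => by
      unfold uni hh
      by_cases h1 : x = v
      · subst h1
        simp only [h, if_true]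
        field_simp
        ring
      · by_cases h5 : pt v = p
        · simp only [h, h5, h1, if_true, if_false]
          field_simp
          ring
        · simp [h1, h5]
    simp only [e, sum_add_distrib, sum_part, sum_ite_eq, mem_univ, if_true]
    field_simp
    ring
  · rw [← sum_uni hs p]
    refine sum_congr rfl fun v _ => ?_
    unfold uni hh
    by_cases h5 : pt v = p
    · rw [if_neg (show ¬ pt x = pt v from h5 ▸ h), mul_one]
    · simp [h5]

theorem th_nonneg (hw : 0 ≤ w) (l j : Fin k) : 0 ≤ th w l j := by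
  unfold th
  split_ifs
  · exact hw
  · exact le_rfl

theorem sum_mix (hs : ∀ p, 2 ≤ sz pt p) (hw : 0 ≤ w) (hφ : ∀ f i j, φ i f = φ j f → i = j)
    (q : Fin k → Fin n → ℝ) (hq : ∀ l, ∑ u, q l u = 1) (j : Fin k) (f f' : P) :
    ∑ v, mix pt φ w j q f f' v = 1 := by
  unfold mix
  rw [one_wit _ (fun a b ha hb => hφ f a b (ha.2.trans hb.2.symm)) _ (sum_uni hs _)]
  refine prod_eq_one fun l _ => ?_
  split_ifs with h
  · simp only [mul_sum]
    rw [sum_comm, ← hq l]
    refine sum_congr rfl fun u _ => ?_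
    simp only [mul_left_comm _ (q l u), ← mul_sum]
    rw [sum_uni_hh hs (th_nonneg hw _ _), mul_one]
  · rfl

theorem sum_rr (hs : ∀ p, 2 ≤ sz pt p) (hw : 0 ≤ w) (hφ : ∀ f i j, φ i f = φ j f → i = j)
    (c : Fin k → Fin n) (j : Fin k) (f f' : P) : ∑ v, rr pt φ w j c f f' v = 1 := by
  rw [← sum_mix hs hw hφ (fun l u => if u = c l then 1 else 0) (by simp) j f f']
  simp [rr, mix]

theorem push (hφ : ∀ f i j, φ i f = φ j f → i = j) (q : Fin k → Fin n → ℝ)
    (hq : ∀ l, ∑ u, q l u = 1) (f f' : P) (d : Fin k → Fin n) :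
    ∑ c : Fin k → Fin n, (∏ l, q l (c l)) * ∏ j, rr pt φ w j c f f' (d j) =
      ∏ j, mix pt φ w j q f f' (d j) := by
  simp only [rr, mix, prod_mul_distrib]
  rw [prod_comm]
  simp only [mul_left_comm (∏ l, q l _), ← mul_sum]
  congr 1
  rw [← prod_congr rfl fun l _ => one_wit (fun j => j ≤ l ∧ φ l f = φ j f')
    (fun a b ha hb => hφ f' a b (ha.2.symm.trans hb.2)) (q l) (hq l)
    (fun j u => hh pt (th w l j) u (d j)), prod_univ_sum, Fintype.piFinset_univ]
  refine sum_congr rfl fun c _ => ?_
  rw [prod_mul_distrib, prod_comm]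

theorem uni_nonneg (p : P) (v : Fin n) : 0 ≤ uni pt p v := by
  unfold uni sz
  positivity

theorem rr_nonneg (hs : ∀ p, 2 ≤ sz pt p) (hw : 0 ≤ w) (j : Fin k) (c : Fin k → Fin n) (f f' : P)
    (v : Fin n) : 0 ≤ rr pt φ w j c f f' v := by
  refine mul_nonneg (uni_nonneg _ _) (prod_nonneg fun l _ => ?_)
  have h1 := th_nonneg hw l j
  have h2 := hs (pt v)
  split_ifs
  · unfold hh
    have h3 : 0 ≤ th w l j + sz pt (pt v) - 1 := by linarith
    have h4 : 0 ≤ sz pt (pt v) := by linarith
    split_ifs <;> positivity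
  · exact zero_le_one

theorem sum_sz [Fintype P] : ∑ p, sz pt p = n := by
  simp only [sz]
  rw [← Nat.cast_sum, ← card_eq_sum_card_fiberwise (f := pt) (s := univ) (fun _ _ => mem_univ _)]
  simp

theorem sz_le (p : P) : sz pt p ≤ n := by
  simpa [sz] using card_filter_le univ fun v => pt v = p

theorem FF_nonneg (hs : ∀ p, 2 ≤ sz pt p) (hw : 0 ≤ w) (f f' : P) : 0 ≤ FF pt w f f' := by
  have h1 := hs f
  have h2 := hs f'
  have h3 := sz_le (pt := pt) f
  refine div_nonneg ?_ (by linarith)
  split_ifs <;> linarith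

theorem sum_FF [Fintype P] (hs : ∀ p, 2 ≤ sz pt p) (hw : 0 ≤ w) (f : P) :
    ∑ f', FF pt w f f' = 1 := by
  have h1 := hs f
  have h3 := sz_le (pt := pt) f
  have e : ∀ f', (if f' = f then w + sz pt f - 1 else sz pt f') =
      sz pt f' + if f' = f then w - 1 else 0 := fun f' => by
    split_ifs with h
    · rw [h]
      ring
    · ring
  simp only [FF, ← sum_div, e, sum_add_distrib, sum_sz, sum_ite_eq', mem_univ, if_true]
  rw [div_eq_one_iff_eq (by linarith)]
  ring

end Pool.Agent.MP_1dd261_pr
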