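import Pool.Agent.MP_1dd261_pr.Core

/-! Two walkers on a cyclic group. -/

namespace Pool.Agent.MP_1dd261_pr

open Finset
open scoped Classical

variable {n : ℕ}

theorem sum_two (g : (Fin 2 → Fin n) → ℝ) : ∑ c, g c = ∑ a, ∑ b, g ![a, b] := by
  rw [← (finTwoArrowEquiv (Fin n)).symm.sum_comp, Fintype.sum_prod_type]
  rfl

theorem eq_two (c : Fin 2 → Fin n) : ∃ a b, c = ![a, b] :=
  ⟨c 0, c 1, by ext i; fin_cases i <;> rfl⟩

theorem upd_zero (a b u : Fin n) : Function.update ![a, b] 0 u = ![u, b] := by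
  ext i
  fin_cases i <;> rfl

theorem upd_one (a b u : Fin n) : Function.update ![a, b] 1 u = ![a, u] := by
  ext i
  fin_cases i <;> rfl

theorem turn_zero (K : Fin 2 → (Fin 2 → Fin n) → Fin n → ℝ) (g : (Fin 2 → Fin n) → ℝ)
    (a b : Fin n) : ∑ c, g c * turn K 0 c ![a, b] = ∑ u, g ![u, b] * K 0 ![u, b] a := by
  simp only [sum_turn, upd_zero, Matrix.cons_val_zero]

theorem turn_one (K : Fin 2 → (Fin 2 → Fin n) → Fin n → ℝ) (g : (Fin 2 → Fin n) → ℝ)
    (a b : Fin n) : ∑ c, g c * turn K 1 c ![a, b] = ∑ u, g ![a, u] * K 1 ![a, u] b := by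
  simp only [sum_turn, upd_one, Matrix.cons_val_one, Matrix.cons_val_zero]

theorem steps_two (K : Fin 2 → (Fin 2 → Fin n) → Fin n → ℝ) (ν : (Fin 2 → Fin n) → ℝ)
    (a b : Fin n) : steps ν K 2 ![a, b] =
      ∑ u, (∑ u', ν ![u', u] * K 0 ![u', u] a) * K 1 ![a, u] b := by
  change ∑ c, (∑ c', ν c' * turn K 0 c' c) * turn K 1 c ![a, b] = _
  simp only [turn_one K fun c => ∑ c', ν c' * turn K 0 c' c, turn_zero]

theorem inj_two {a b : Fin n} (h : a ≠ b) : Function.Injective ![a, b] := by
  intro i j hij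
  fin_cases i <;> fin_cases j <;> simp_all [eq_comm]

variable [NeZero n] (α β : Fin n → ℝ) (s : ℝ)

/-- The first walker stays with probability `s` and otherwise jumps relative to the second one;
the second walker stays if the first one did and otherwise jumps relative to the first one. -/
noncomputable def K2 (j : Fin 2) (c : Fin 2 → Fin n) (v : Fin n) : ℝ :=
  if j = 0 then s * (if v = c 0 then 1 else 0) + (1 - s) * α (v - c 1)
  else if s ≠ 0 ∧ β (c 1 - c 0) ≠ 0 then (if v = c 1 then 1 else 0) else β (v - c 0)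

variable {α β s}

omit [NeZero n] in
theorem K2_zero (a b v : Fin n) :
    K2 α β s 0 ![a, b] v = s * (if v = a then 1 else 0) + (1 - s) * α (v - b) := if_pos rfl

omit [NeZero n] in
theorem K2_one (a b v : Fin n) : K2 α β s 1 ![a, b] v =
    if s ≠ 0 ∧ β (b - a) ≠ 0 then (if v = b then 1 else 0) else β (v - a) :=
  if_neg (by decide)

theorem sum_shift {γ : Fin n → ℝ} (h : ∑ e, γ e = 1) (x : Fin n) : ∑ v, γ (v - x) = 1 :=
  ((Equiv.subRight x).sum_comp γ).trans h

theorem K2_key (hd : s ≠ 0 → ∀ e, α e ≠ 0 → β (-e) = 0) (x u a b : Fin n) (h : β (u - x) ≠ 0) :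
    K2 α β s 0 ![x, u] a * K2 α β s 1 ![a, u] b =
      s * (if a = x then 1 else 0) * (if b = u then 1 else 0) +
        (1 - s) * α (a - u) * β (b - a) := by
  rw [K2_zero, K2_one, add_mul]
  congr 1
  · by_cases hs : s = 0
    · simp [hs]
    · by_cases ha : a = x
      · rw [if_pos (show s ≠ 0 ∧ β (u - a) ≠ 0 from ⟨hs, ha ▸ h⟩)]
      · simp [ha]
  · by_cases h1 : α (a - u) = 0
    · simp [h1]
    · rw [if_neg fun h2 : s ≠ 0 ∧ β (u - a) ≠ 0 => h2.2 (neg_sub a u ▸ hd h2.1 _ h1)]

theorem isMAC_two {w : ℝ} (h0 : 0 ≤ s) (h1 : s ≤ 1) (ha : ∀ e, 0 ≤ α e) (hb : ∀ e, 0 ≤ β e)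
    (ha1 : ∑ e, α e = 1) (hb1 : ∑ e, β e = 1) (ha0 : α 0 = 0) (hb0 : β 0 = 0)
    (hd : s ≠ 0 → ∀ e, α e ≠ 0 → β (-e) = 0)
    (hc : ∀ x y, s * (if y = x then 1 else 0) + (1 - s) * ∑ u, β (u - x) * α (y - u) =
      walk n w x y) :
    IsMAC w (fun c : Fin 2 → Fin n => β (c 1 - c 0) / n) (K2 α β s) := by
  have hn : (n : ℝ) ≠ 0 := Nat.cast_ne_zero.2 (NeZero.ne n)
  have hne : ∀ a b : Fin n, β (b - a) ≠ 0 → a ≠ b := fun a b h hab => h (by rw [hab, sub_self, hb0])
  refine ⟨fun c => div_nonneg (hb _) n.cast_nonneg, ?_, fun j c v => ?_, fun j c => ?_,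
    avoid_of_inv _ _ (fun t c => c 0 ≠ c 1 ∧ (t % 2 = 0 → β (c 1 - c 0) ≠ 0)) (fun c hc => ?_)
      (fun t c v h hv => ?_) (fun t c h => ?_), Fin.forall_fin_two.2 ⟨?_, ?_⟩⟩
  · simp [sum_two, ← sum_div, sum_shift hb1, hn]
  · have h2 := ha (v - c 1)
    have h3 := hb (v - c 0)
    have h4 := sub_nonneg.2 h1
    unfold K2
    split_ifs <;> positivity
  · unfold K2
    split_ifs <;> simp [sum_add_distrib, ← mul_sum, sum_shift ha1, sum_shift hb1]
  · have h2 : β (c 1 - c 0) ≠ 0 := fun h => hc (by simp [h])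
    exact ⟨hne _ _ h2, fun _ => h2⟩
  · obtain ⟨a, b, rfl⟩ := eq_two c
    rcases Nat.mod_two_eq_zero_or_one t with ht | ht
    · rw [show Fin.ofNat 2 t = 0 from Fin.ext ht] at hv ⊢
      rw [upd_zero]
      refine ⟨fun hb : v = b => hv ?_, fun h => by omega⟩
      rw [K2_zero, hb, sub_self, ha0, if_neg (show ¬ b = a from Ne.symm h.1)]
      simp
    · rw [show Fin.ofNat 2 t = 1 from Fin.ext ht] at hv ⊢
      rw [upd_one]
      have h2 : β (v - a) ≠ 0 := by
        rw [K2_one] at hv
        split_ifs at hv with h3 h4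
        · exact h4 ▸ h3.2
        · exact absurd rfl hv
        · exact hv
      exact ⟨hne _ _ h2, fun _ => h2⟩
  · obtain ⟨a, b, rfl⟩ := eq_two c
    exact inj_two h.1
  · refine faithful_of_inv _ _ w 0 (fun x ν M => ∀ a b, ν ![a, b] =
      if a = x then M * β (b - x) else 0) (fun x a b => ?_) (fun x ν M y h a b => ?_)
      fun x ν M h => ?_
    · rw [sum_filter, sum_two]
      by_cases h : a = x <;> simp [h, ← mul_sum, sum_shift hb1, div_eq_inv_mul]
    · simp only [Matrix.cons_val_zero, steps_two, h, ite_mul, zero_mul, sum_ite_eq', mem_univ,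
        if_true]
      split_ifs with h2
      · subst h2
        have e : ∀ u, M * β (u - x) * K2 α β s 0 ![x, u] a * K2 α β s 1 ![a, u] b =
            (if b = u then M * (s * if a = x then 1 else 0) * β (b - a) else 0) +
              M * (1 - s) * β (b - a) * (β (u - x) * α (a - u)) := fun u => by
          by_cases h3 : β (u - x) = 0
          · by_cases h4 : b = u <;> by_cases h5 : a = x <;> simp [h3, h4, h5]
          · rw [mul_assoc (M * _), K2_key hd _ _ _ _ h3]
            by_cases h4 : b = u <;> by_cases h5 : a = x <;> simp [h4, h5] <;> ring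
        simp only [e, sum_add_distrib, sum_ite_eq, mem_univ, if_true, ← mul_sum, ← hc]
        ring
      · rfl
    · simp [sum_two, h, ← mul_sum, sum_shift hb1]
  · refine faithful_of_inv _ _ w 1 (fun y ν M => ∑ c, ν c = M ∧ ∀ a b, ν ![a, b] ≠ 0 →
      b = y ∧ β (b - a) ≠ 0) (fun y => ⟨(sum_filter _ _).symm, fun a b h => ?_⟩)
      (fun y ν M z h => ?_) fun x ν M h => h.1
    · by_cases h2 : b = y
      · exact ⟨h2, fun h3 => h (by simp [h3])⟩
      · exact absurd (if_neg h2) h
    · have e1 : ∀ u u', u ≠ y → ν ![u', u] = 0 := fun u u' hu =>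
        by_contra fun h2 => hu (h.2 _ _ h2).1
      have e2 : ∑ u', ν ![u', y] = M := by
        rw [← h.1, sum_two]
        exact sum_congr rfl fun u' _ =>
          (sum_eq_single y (fun u _ hu => e1 u u' hu) (by simp)).symm
      have e : ∀ a b, steps ν (K2 α β s) 2 ![a, b] = s * ν ![a, y] * (if b = y then 1 else 0) +
          (1 - s) * M * (β (b - a) * α (a - y)) := fun a b => by
        have e3 : ∀ u', ν ![u', y] * K2 α β s 0 ![u', y] a * K2 α β s 1 ![a, y] b =
            (if a = u' then s * ν ![a, y] * (if b = y then 1 else 0) else 0) +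
              (1 - s) * (β (b - a) * α (a - y)) * ν ![u', y] := fun u' => by
          by_cases h3 : ν ![u', y] = 0
          · by_cases h5 : a = u' <;> simp [h3, h5]
          · rw [mul_assoc, K2_key hd _ _ _ _ (h.2 _ _ h3).2]
            by_cases h5 : a = u' <;> by_cases h6 : b = y <;> simp [h5, h6] <;> ring
        rw [steps_two, sum_eq_single y (fun u _ hu => by simp [e1 u _ hu]) (by simp), sum_mul]
        simp only [e3, sum_add_distrib, sum_ite_eq, mem_univ, if_true, ← mul_sum, e2]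
        ring
      refine ⟨?_, fun a b h2 => ?_⟩
      · have e4 : ∑ a, β (z - a) * α (a - y) = ∑ u, β (u - y) * α (z - u) := by
          rw [← (Equiv.subLeft (z + y)).sum_comp]
          refine sum_congr rfl fun u _ => ?_
          simp only [Equiv.subLeft_apply]
          congr 2 <;> abel
        simp only [sum_two, Matrix.cons_val_one, Matrix.cons_val_zero, sum_ite_eq', mem_univ,
          if_true, e, sum_add_distrib, ← mul_sum, ← sum_mul, e2, e4, ← hc]
        ring
      · by_cases h3 : b = z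
        · refine ⟨h3, fun h4 => h2 ?_⟩
          have h5 : ν ![a, y] * (if b = y then 1 else 0) = 0 := by
            split_ifs with h6
            · rw [mul_one]
              by_contra h7
              exact (h.2 _ _ h7).2 (h6 ▸ h4)
            · exact mul_zero _
          simp only [e, h4, mul_assoc, h5, mul_zero, zero_mul, add_zero, ite_self]
        · exact absurd (if_neg h3) h2

omit [NeZero n] in
theorem exists_odd (m : ℕ) {w : ℝ} (hw : 0 ≤ w) :
    ∃ (μ : (Fin 2 → Fin (2 * m + 4 + 1)) → ℝ)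
      (K : Fin 2 → (Fin 2 → Fin (2 * m + 4 + 1)) → Fin (2 * m + 4 + 1) → ℝ), IsMAC w μ K := by
  let γ : Fin (2 * m + 4 + 1) → ℝ := fun d => if (d : ℕ) % 2 = 1 then 1 else 0
  let a : Fin (2 * m + 4 + 1) := ⟨2, by omega⟩
  have hm : (0 : ℝ) < m + 2 := by positivity
  have hw' : (0 : ℝ) < w + (2 * m + 4) := by positivity
  have h1 : ∀ d, γ d + γ (d - 1) = if d = 0 then 0 else 1 := fun d => by
    by_cases h : d = 0
    · simp [h, γ, Fin.coe_neg_one, Nat.add_mod]
    · have h2 : (d : ℕ) ≠ 0 := fun h' => h (Fin.ext h')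
      simp only [γ, Fin.val_sub_one_of_ne_zero h, h, if_false]
      split_ifs <;> first | omega | norm_num
  have h2 : ∑ d, γ d = m + 2 := by
    have h3 := sum_congr (rfl : univ = univ) fun d _ => h1 d
    rw [sum_add_distrib, show ∑ d, γ (d - 1) = ∑ d, γ d from
      Equiv.sum_comp (Equiv.subRight 1) γ] at h3
    simp only [sum_ite, sum_const_zero, filter_ne', card_erase_of_mem (mem_univ _),
      sum_const, card_univ, Fintype.card_fin, zero_add, nsmul_eq_mul, mul_one] at h3
    push_cast at h3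
    linarith
  have h4 : a ≠ 0 := by simp [a]
  have h5 : a + 1 ≠ 0 := fun h => by
    have := h1 0
    have h6 : a = 0 - 1 := eq_sub_of_add_eq h
    have h7 := congrArg Fin.val h6
    simp [a, Fin.coe_neg_one] at h7
  refine ⟨_, _, isMAC_two (s := w / (w + (2 * m + 4)))
    (α := fun e => (if e = a then 1 / 2 else 0) + if e = a + 1 then 1 / 2 else 0)
    (β := fun d => γ (d + a) / (m + 2)) (by positivity) (div_le_one_of_le₀ (by linarith) hw'.le)
    (fun e => by positivity) (fun e => by simp only [γ]; positivity)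
    (by simp [sum_add_distrib]; norm_num) ?_ (by simp [h4.symm, h5.symm]) (by simp [γ, a])
    (fun _ e he => ?_) fun x y => ?_⟩
  · rw [← sum_div, show ∑ d, γ (d + a) = ∑ d, γ d from Equiv.sum_comp (Equiv.addRight a) γ, h2,
      div_self hm.ne']
  · by_cases h6 : e = a
    · simp [h6, γ]
    · by_cases h7 : e = a + 1
      · simp [h7, γ, Fin.coe_neg_one, Nat.add_mod]
      · simp [h6, h7] at he
  · have e1 : ∀ u b, y - u = b ↔ u = y - b := fun u b => by
      rw [sub_eq_iff_eq_add', eq_sub_iff_add_eq, eq_comm]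
    have e2 := h1 (y - x)
    simp only [e1, mul_add, sum_add_distrib, mul_ite, mul_zero, sum_ite_eq', mem_univ, if_true,
      walk, show y - a - x + a = y - x by abel, show y - (a + 1) - x + a = y - x - 1 by abel]
    rw [eq_sub_of_add_eq e2]
    simp only [sub_eq_zero]
    push_cast
    rw [show w + (2 * (m : ℝ) + 4 + 1) - 1 = w + (2 * m + 4) by ring]
    split_ifs <;> field_simp <;> ring

omit [NeZero n] in
theorem exists_three {w : ℝ} (hw : 2 ≤ w) :
    ∃ (μ : (Fin 2 → Fin 3) → ℝ) (K : Fin 2 → (Fin 2 → Fin 3) → Fin 3 → ℝ), IsMAC w μ K := by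
  obtain ⟨r, h0, h1, hr⟩ : ∃ r : ℝ, 0 ≤ r ∧ r ≤ 1 ∧ r * (1 - r) * (w + 2) = 1 := by
    have h1 : 0 ≤ (w - 2) / (w + 2) := div_nonneg (by linarith) (by linarith)
    have h2 : (w - 2) / (w + 2) ≤ 1 := div_le_one_of_le₀ (by linarith) (by linarith)
    have h3 := Real.mul_self_sqrt h1
    have h4 := Real.sqrt_le_one.2 h2
    have h5 := Real.sqrt_nonneg ((w - 2) / (w + 2))
    have h6 : (w - 2) / (w + 2) * (w + 2) = w - 2 := div_mul_cancel₀ _ (by linarith)
    exact ⟨(1 + √((w - 2) / (w + 2))) / 2, by linarith, by linarith, by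
      linear_combination (-(w + 2) / 4) * h3 - h6 / 4⟩
  have h2 := sub_nonneg.2 h1
  refine ⟨_, _, isMAC_two (s := 0) (α := ![0, 1 - r, r]) (β := ![0, r, 1 - r]) le_rfl zero_le_one
    (fun e => by fin_cases e <;> simp [h0, h1]) (fun e => by fin_cases e <;> simp [h0, h1])
    (by simp [Fin.sum_univ_three]) (by simp [Fin.sum_univ_three]) rfl rfl (fun h => absurd rfl h)
    fun x y => ?_⟩
  rw [walk, eq_div_iff (by push_cast; linarith)]
  fin_cases x <;> fin_cases y <;> simp [Fin.sum_univ_three] <;>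
    first | linear_combination hr | linear_combination -2 * hr

end Pool.Agent.MP_1dd261_pr
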